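import Pool.Agent.V1282.LIb

/-!
# MP_6e3e44_an, Q1: Lipschitz interpolation of `L^γ[0,1]` between `L^β[0,1]` and `L^α[0,1]`

For all exponents `1 ≤ β < γ < α < ∞`, `L^γ[0,1]` is a Lipschitz interpolation space between
`L^β[0,1]` and `L^α[0,1]`, with the explicit constant
`C = 2 (γ/(γ-β) + γ/(α-γ))^(1/γ)`.
-/

open MeasureTheory Set Filter Topology
open scoped ENNReal NNReal

namespace Pool.Agent.Results.MP_6e3e44_an.LipschitzInterpolation

open Pool.Agent.V1282

/-- Lebesgue measure on `[0,1]`. -/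
noncomputable def muI : Measure ℝ := volume.restrict (Icc (0:ℝ) 1)

/-- The space `L^p[0,1]` of complex valued functions, `p` a real exponent. -/
abbrev L (p : ℝ) : Type := Lp ℂ (ENNReal.ofReal p) muI

/-- The element `x` of `L^q[0,1]` belongs to `L^p[0,1]`. -/
def In (p : ℝ) {q : ℝ} (x : L q) : Prop := MemLp (⇑x) (ENNReal.ofReal p) muI

/-- The `L^p[0,1]` distance `‖x - y‖_p` of two elements of `L^q[0,1]` (`∞` if `x - y ∉ L^p`). -/
noncomputable def D (p : ℝ) {q : ℝ} (x y : L q) : ℝ≥0∞ :=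
  eLpNorm (⇑x - ⇑y) (ENNReal.ofReal p) muI

/-- `L^γ[0,1]` is a Lipschitz interpolation space with constant `C` between `L^β[0,1]` and
`L^α[0,1]`: every map `U : L^β → L^β` which maps `L^α` into `L^α`, is Lipschitz on `L^β` with
constant `M₀` and Lipschitz on `L^α` with constant `M₁`, maps `L^γ` into `L^γ` and is Lipschitz
there with constant `C * max M₀ M₁`. -/
def IsLipschitzInterpolation (β γ α C : ℝ) : Prop :=
  ∀ (U : L β → L β) (M₀ M₁ : ℝ≥0),
    (∀ x y : L β, D β (U x) (U y) ≤ M₀ * D β x y) →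
    (∀ x : L β, In α x → In α (U x)) →
    (∀ x y : L β, In α x → In α y → D α (U x) (U y) ≤ M₁ * D α x y) →
    (∀ x : L β, In γ x → In γ (U x)) ∧
    (∀ x y : L β, In γ x → In γ y →
      D γ (U x) (U y) ≤ ENNReal.ofReal (C * (max M₀ M₁ : ℝ≥0)) * D γ x y)

theorem result : ∀ β γ α : ℝ, 1 ≤ β → β < γ → γ < α →
    ∃ C : ℝ, 0 < C ∧ C = 2 * (γ / (γ - β) + γ / (α - γ)) ^ (1 / γ) ∧
      IsLipschitzInterpolation β γ α C := by
  intro β γ α hβ hβγ hγα
  have hβ0 : 0 < β := by linarith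
  have hKC : KC β γ α = 2 * (γ / (γ - β) + γ / (α - γ)) ^ (1 / γ) := by
    unfold KC
    congr 2
    ring
  refine ⟨KC β γ α, KC_pos hβ0 hβγ hγα, hKC, ?_⟩
  intro U M₀ M₁ h0 h1 h2
  haveI : IsFiniteMeasure muI := by unfold muI; infer_instance
  haveI : Fact (1 ≤ ENNReal.ofReal β) := ⟨by
    rw [← ENNReal.ofReal_one]; exact ENNReal.ofReal_le_ofReal hβ⟩
  have hn : ∀ x y : L β, D β x y = ENNReal.ofReal ‖x - y‖ := by
    intro x y
    rw [Lp.norm_def, ENNReal.ofReal_toReal (Lp.eLpNorm_ne_top _)]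
    exact eLpNorm_congr_ae (Lp.coeFn_sub _ _).symm
  set M : ℝ≥0 := max M₀ M₁ with hMdef
  have h0' : ∀ x y : L β, ‖U x - U y‖ ≤ M * ‖x - y‖ := by
    intro x y
    have h3 := h0 x y
    rw [hn, hn, ← ENNReal.ofReal_coe_nnreal, ← ENNReal.ofReal_mul (by positivity)] at h3
    have h4 := (ENNReal.ofReal_le_ofReal_iff (by positivity)).mp h3
    refine h4.trans ?_
    have : (M₀ : ℝ) ≤ M := by exact_mod_cast le_max_left _ _
    gcongr
  have main : ∀ x y : L β, D γ (U x) (U y) ≤ ENNReal.ofReal (KC β γ α * M) * D γ x y := by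
    intro x y
    rcases eq_or_lt_of_le (bot_le : (0 : ℝ≥0) ≤ M) with hM0 | hMpos
    · have h3 := h0' x y
      rw [← hM0] at h3
      have h4 : U x = U y := by
        have : ‖U x - U y‖ ≤ 0 := by simpa using h3
        exact sub_eq_zero.mp (norm_le_zero_iff.mp this)
      have : D γ (U x) (U y) = 0 := by
        unfold D; rw [h4]; simp
      rw [this]; exact bot_le
    · have hMr : (0:ℝ) < M := by exact_mod_cast hMpos
      have h3 := full (μ := muI) hβ hβγ hγα U hMr h0' (by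
        intro a b ha hb
        refine (h2 a b ha hb).trans ?_
        unfold D
        rw [ENNReal.ofReal_coe_nnreal]
        gcongr
        exact_mod_cast le_max_right _ _) y x
      unfold D
      refine h3.trans (le_of_eq ?_)
      congr 1
      exact eLpNorm_congr_ae (Lp.coeFn_sub _ _)
  refine ⟨?_, fun x y _ _ => main x y⟩
  intro x hx
  have z0 : In α (0 : L β) := by
    unfold In
    exact MemLp.ae_eq (Lp.coeFn_zero _ _ _).symm MemLp.zero
  have z1 : In α (U 0) := h1 0 z0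
  have z2 : MemLp (⇑(U 0)) (ENNReal.ofReal γ) muI :=
    MemLp.mono_exponent z1 (ENNReal.ofReal_le_ofReal hγα.le)
  have z3 : D γ (U x) (U 0) < ∞ := by
    refine lt_of_le_of_lt (main x 0) ?_
    refine ENNReal.mul_lt_top (by simp) ?_
    have : D γ x 0 = eLpNorm (⇑x) (ENNReal.ofReal γ) muI := by
      unfold D
      refine eLpNorm_congr_ae ?_
      filter_upwards [Lp.coeFn_zero ℂ (ENNReal.ofReal β) muI] with a ha
      rw [Pi.sub_apply, ha]; simp
    rw [this]
    exact hx.2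
  have z4 : MemLp (⇑(U x) - ⇑(U 0)) (ENNReal.ofReal γ) muI :=
    ⟨(Lp.aestronglyMeasurable _).sub (Lp.aestronglyMeasurable _), z3⟩
  have z5 := z4.add z2
  have z6 : ⇑(U x) - ⇑(U 0) + ⇑(U 0) = ⇑(U x) := by
    funext a; simp
  rw [z6] at z5
  exact z5

end Pool.Agent.Results.MP_6e3e44_an.LipschitzInterpolation
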